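import Mathlib

set_option autoImplicit false

open Set

namespace Q67.DJ

/-- `A` is a minimal set of `T`: it is nonempty, closed and `T`-invariant, and has no proper
nonempty closed invariant subset. The system `(X,T)` is minimal if `univ` is a minimal set. -/
def IsMinimalSet {X : Type} [TopologicalSpace X] (T : X → X) (A : Set X) : Prop :=
  A.Nonempty ∧ IsClosed A ∧ MapsTo T A A ∧
    ∀ B ⊆ A, B.Nonempty → IsClosed B → MapsTo T B B → B = A

/-- The closure of the orbit `{Tⁿ x : n ≥ 0}`. -/
def OrbitClosure {X : Type} [TopologicalSpace X] (T : X → X) (x : X) : Set X :=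
  closure (range fun n : ℕ => T^[n] x)

/-- `x` is a minimal point: its orbit closure is minimal. -/
def MinimalPoint {X : Type} [TopologicalSpace X] (T : X → X) (x : X) : Prop :=
  IsMinimalSet T (OrbitClosure T x)

/-- The subsystem on the closed invariant set `A` has dense minimal points. -/
def HasDenseMinimalPoints {X : Type} [TopologicalSpace X] (T : X → X) (A : Set X) : Prop :=
  A ⊆ closure {y | y ∈ A ∧ MinimalPoint T y}

/-- `J` is a joining of `(X,T)` and `(Y,S)`: a nonempty closed `T × S`-invariant set whose
projections to `X` and to `Y` are onto. -/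
def IsJoining {X Y : Type} [TopologicalSpace X] [TopologicalSpace Y] (T : X → X) (S : Y → Y)
    (J : Set (X × Y)) : Prop :=
  J.Nonempty ∧ IsClosed J ∧ MapsTo (Prod.map T S) J J ∧ Prod.fst '' J = univ ∧
    Prod.snd '' J = univ

/-- `(X,T)` is disjoint from every minimal system `(Y,S)` on a compact metric space: the whole
product is the only joining. -/
def DisjointFromAllMinimal {X : Type} [TopologicalSpace X] (T : X → X) : Prop :=
  ∀ (Y : Type) [MetricSpace Y] [CompactSpace Y] (S : Y → Y), Continuous S →
    Function.Surjective S → IsMinimalSet S univ →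
      ∀ J : Set (X × Y), IsJoining T S J → J = univ

end Q67.DJ
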