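import Mathlib
import Pool.Agent.Q67.DJ.Defs

set_option autoImplicit false

open Set Filter
open scoped Topology

namespace Q67.DJ

/-! ### Minimal sets of powers -/

section Min

variable {Y : Type} [TopologicalSpace Y] [CompactSpace Y] [T2Space Y]

theorem exists_minimal_set (f : Y → Y) [Nonempty Y] : ∃ M, IsMinimalSet f M := by
  let S : Set (Set Y) := {A | A.Nonempty ∧ IsClosed A ∧ MapsTo f A A}
  have h1 : (univ : Set Y) ∈ S := ⟨univ_nonempty, isClosed_univ, mapsTo_univ _ _⟩
  obtain ⟨M, -, hM⟩ := zorn_superset_nonempty S (by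
    intro c hcS hc hne
    refine ⟨⋂₀ c, ⟨?_, isClosed_sInter fun s hs => (hcS hs).2.1, ?_⟩, fun s hs => sInter_subset_of_mem hs⟩
    · have : Nonempty c := hne.to_subtype
      rw [sInter_eq_iInter]
      refine IsCompact.nonempty_iInter_of_directed_nonempty_isCompact_isClosed _ ?_
        (fun i => (hcS i.2).1) (fun i => (hcS i.2).2.1.isCompact) (fun i => (hcS i.2).2.1)
      intro a b
      rcases hc.total a.2 b.2 with h | h
      · exact ⟨a, subset_rfl, h⟩
      · exact ⟨b, h, subset_rfl⟩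
    · intro x hx s hs
      exact (hcS hs).2.2 (hx s hs)) univ h1
  refine ⟨M, hM.1.1, hM.1.2.1, hM.1.2.2, fun B hB h2 h3 h4 => ?_⟩
  exact Subset.antisymm hB (hM.2 ⟨h2, h3, h4⟩ hB)

theorem iterate_mapsTo {f : Y → Y} {A : Set Y} (h : MapsTo f A A) (n : ℕ) :
    MapsTo f^[n] A A := h.iterate n

/-- The minimal pieces of a power of a minimal system. -/
theorem pieces {R : Y → Y} (hR : Continuous R) (hmin : IsMinimalSet R univ) (N : ℕ) (hN : 0 < N) :
    ∃ M, IsMinimalSet R^[N] M ∧ ∀ z, ∃ i, z ∈ R^[i] '' M := by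
  have : Nonempty Y := hmin.1.to_type
  obtain ⟨M, hM⟩ := exists_minimal_set (R^[N])
  refine ⟨M, hM, ?_⟩
  have h1 : (⋃ i ∈ Finset.range N, R^[i] '' M) = univ := by
    refine hmin.2.2.2 _ (subset_univ _) ?_ ?_ ?_
    · obtain ⟨x, hx⟩ := hM.1
      exact ⟨x, mem_biUnion (Finset.mem_coe.2 (Finset.mem_range.2 hN)) ⟨x, hx, rfl⟩⟩
    · exact isClosed_biUnion_finset fun i _ => (hM.2.1.isCompact.image (hR.iterate i)).isClosed
    · intro x hx
      rw [mem_iUnion₂] at hx ⊢
      obtain ⟨i, hi, m, hm, rfl⟩ := hx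
      rw [Finset.mem_range] at hi
      rcases Nat.lt_or_ge (i + 1) N with h | h
      · exact ⟨i + 1, Finset.mem_range.2 h, m, hm, Function.iterate_succ_apply' _ _ _⟩
      · have : i + 1 = N := by omega
        refine ⟨0, Finset.mem_range.2 hN, R^[N] m, hM.2.2.1 hm, ?_⟩
        rw [← this, Function.iterate_succ_apply']; rfl
  intro z
  have h2 : z ∈ (⋃ i ∈ Finset.range N, R^[i] '' M) := by rw [h1]; trivial
  rw [mem_iUnion₂] at h2
  obtain ⟨i, -, h⟩ := h2
  exact ⟨i, h⟩

theorem piece_minimal {R : Y → Y} (hR : Continuous R) {N : ℕ} {M : Set Y}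
    (hM : IsMinimalSet R^[N] M) (i : ℕ) {A : Set Y} (hA : IsClosed A) (hAN : MapsTo R^[N] A A)
    {z : Y} (hz : z ∈ A) (hz' : z ∈ R^[i] '' M) : R^[i] '' M ⊆ A := by
  have h1 : M ∩ (R^[i]) ⁻¹' A = M := by
    refine hM.2.2.2 _ inter_subset_left ?_ (hM.2.1.inter (hA.preimage (hR.iterate i))) ?_
    · obtain ⟨m, hm, rfl⟩ := hz'
      exact ⟨m, hm, hz⟩
    · rintro m ⟨hm, hmA⟩
      refine ⟨hM.2.2.1 hm, ?_⟩
      have : R^[i] (R^[N] m) = R^[N] (R^[i] m) := by
        rw [← Function.iterate_add_apply, ← Function.iterate_add_apply, add_comm]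
      rw [mem_preimage, this]
      exact hAN hmA
  rintro _ ⟨m, hm, rfl⟩
  rw [← h1] at hm
  exact hm.2

theorem piece_mapsTo {R : Y → Y} {N : ℕ} {M : Set Y} (hM : IsMinimalSet R^[N] M) (i k t n : ℕ)
    (h : t + k = i + N * n) {z : Y} (hz : z ∈ R^[k] '' M) : R^[t] z ∈ R^[i] '' M := by
  obtain ⟨m, hm, rfl⟩ := hz
  rw [← Function.iterate_add_apply, h, Function.iterate_add_apply, Function.iterate_mul]
  exact ⟨_, hM.2.2.1.iterate n hm, rfl⟩

end Min

/-! ### The system -/

/-- the space: pairs `(P, w)` such that the differences of ones of `w` belong to `P` -/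
def Adm : Set ((ℕ → Bool) × (ℕ → Bool)) :=
  {x | ∀ i j, i < j → x.2 i = true → x.2 j = true → x.1 (j - i) = true}

theorem Adm_closed : IsClosed Adm := by
  have h : Adm = ⋂ (i : ℕ) (j : ℕ) (_ : i < j),
      {x | ((x.2 i && x.2 j) && !(x.1 (j - i))) = false} := by
    ext x
    simp only [Adm, mem_ofPred_eq, mem_iInter]
    refine forall_congr' fun i => forall_congr' fun j => forall_congr' fun _ => ?_
    cases x.2 i <;> cases x.2 j <;> cases x.1 (j - i) <;> simp
  rw [h]
  refine isClosed_iInter fun i => isClosed_iInter fun j => isClosed_iInter fun _ => ?_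
  have h1 : Continuous fun x : (ℕ → Bool) × (ℕ → Bool) => ((x.2 i && x.2 j) && !(x.1 (j - i))) := by
    have h2 : Continuous fun p : Bool × Bool × Bool => ((p.1 && p.2.1) && !p.2.2) :=
      continuous_of_discreteTopology
    have k1 : Continuous fun x : (ℕ → Bool) × (ℕ → Bool) => x.2 i :=
      (continuous_apply i).comp continuous_snd
    have k2 : Continuous fun x : (ℕ → Bool) × (ℕ → Bool) => x.2 j :=
      (continuous_apply j).comp continuous_snd
    have k3 : Continuous fun x : (ℕ → Bool) × (ℕ → Bool) => x.1 (j - i) :=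
      (continuous_apply (j - i)).comp continuous_fst
    exact h2.comp (k1.prodMk (k2.prodMk k3))
  exact isClosed_singleton.preimage h1

/-- the space -/
abbrev X : Type := Adm

instance : CompactSpace X := isCompact_iff_compactSpace.1 Adm_closed.isCompact

/-- the map -/
def T (x : X) : X := ⟨(x.1.1, fun i => x.1.2 (i + 1)), fun i j hij h1 h2 => by
  have := x.2 (i + 1) (j + 1) (by omega) h1 h2
  rwa [Nat.add_sub_add_right] at this⟩

theorem T_cont : Continuous T := by
  refine Continuous.subtype_mk ?_ _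
  refine (continuous_fst.comp continuous_subtype_val).prodMk (continuous_pi fun i => ?_)
  exact (continuous_apply (i + 1)).comp (continuous_snd.comp continuous_subtype_val)

theorem T_iter (n : ℕ) (x : X) : (T^[n] x).1 = (x.1.1, fun i => x.1.2 (i + n)) := by
  induction n generalizing x with
  | zero => rfl
  | succ n ih =>
    rw [Function.iterate_succ_apply, ih]
    refine Prod.ext rfl ?_
    funext i
    change x.1.2 (i + n + 1) = _
    rfl

theorem T_surj : Function.Surjective T := by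
  intro x
  refine ⟨⟨(x.1.1, fun i => if i = 0 then false else x.1.2 (i - 1)), ?_⟩, ?_⟩
  · intro i j hij h1 h2
    dsimp only at h1 h2 ⊢
    by_cases hi : i = 0
    · simp [hi] at h1
    · rw [if_neg hi] at h1
      rw [if_neg (by omega)] at h2
      have := x.2 (i - 1) (j - 1) (by omega) h1 h2
      rwa [show j - 1 - (i - 1) = j - i by omega] at this
  · apply Subtype.ext
    refine Prod.ext rfl ?_
    funext i
    change (if i + 1 = 0 then false else x.1.2 (i + 1 - 1)) = _
    rw [if_neg (by omega), Nat.add_sub_cancel]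

/-! ### Points of the system built from a word -/

/-- Enlarging the set of differences. -/
def bigP (P : ℕ → Bool) (M : ℕ) : ℕ → Bool := fun d => P d || decide (M ≤ d)

open Classical in
/-- Copies of the initial word of length `M` of `w` placed at the elements of `S`. -/
noncomputable def pl (w : ℕ → Bool) (M : ℕ) (S : Set ℕ) : ℕ → Bool :=
  fun j => decide (∃ s ∈ S, s ≤ j ∧ j < s + M ∧ w (j - s) = true)

theorem pl_iff (w : ℕ → Bool) (M : ℕ) (S : Set ℕ) (j : ℕ) :
    pl w M S j = true ↔ ∃ s ∈ S, s ≤ j ∧ j < s + M ∧ w (j - s) = true := by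
  simp [pl]

theorem pl_mem {x : (ℕ → Bool) × (ℕ → Bool)} (hx : x ∈ Adm) (M : ℕ) (S : Set ℕ)
    (hS : ∀ s ∈ S, ∀ s' ∈ S, s < s' → s + 2 * M ≤ s') : (bigP x.1 M, pl x.2 M S) ∈ Adm := by
  intro i j hij h1 h2
  dsimp only at h1 h2 ⊢
  rw [pl_iff] at h1 h2
  obtain ⟨s, hs, h3, h4, h5⟩ := h1
  obtain ⟨s', hs', h3', h4', h5'⟩ := h2
  rcases lt_trichotomy s s' with h | h | h
  · have := hS s hs s' hs' h
    have h6 : M ≤ j - i := by omega
    simp [bigP, h6]
  · subst h
    have := hx (i - s) (j - s) (by omega) h5 h5'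
    rw [show j - s - (i - s) = j - i by omega] at this
    simp [bigP, this]
  · have := hS s' hs' s hs h
    omega

/-- starting times -/
def ct (N l : ℕ) : ℕ := 2 * N * l ^ 2 + l

/-- The positions of the copies for the point visiting all the phases. -/
def SX (N : ℕ) : Set ℕ := {s | ∃ l a, a < l ∧ s = ct N l + N * a}

/-- The positions of the copies for the periodic point. -/
def SP (N : ℕ) : Set ℕ := {s | ∃ a, s = N * a}

theorem ct_gap (N : ℕ) {l l' : ℕ} (h : l < l') : ct N l + N * (l + 1) ≤ ct N l' := by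
  simp only [ct]
  have h1 : (l + 1) ^ 2 ≤ l' ^ 2 := Nat.pow_le_pow_left h 2
  have h2 : 2 * N * (l + 1) ^ 2 ≤ 2 * N * l' ^ 2 := Nat.mul_le_mul_left _ h1
  have h3 : 2 * N * l ^ 2 + N * (l + 1) ≤ 2 * N * (l + 1) ^ 2 := by nlinarith [Nat.zero_le (N * l)]
  omega

theorem SX_sep (M : ℕ) : ∀ s ∈ SX (2 * M), ∀ s' ∈ SX (2 * M), s < s' → s + 2 * M ≤ s' := by
  rintro s ⟨l, a, ha, rfl⟩ s' ⟨l', a', ha', rfl⟩ h
  rcases lt_trichotomy l l' with h1 | h1 | h1
  · have h2 := ct_gap (2 * M) h1
    have h3 : 2 * M * (a + 1) ≤ 2 * M * (l + 1) := Nat.mul_le_mul_left _ (by omega)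
    have h4 : 2 * M * (a + 1) = 2 * M * a + 2 * M := by ring
    omega
  · subst h1
    have h2 : a < a' := by
      by_contra hcon
      have := Nat.mul_le_mul_left (2 * M) (not_lt.1 hcon)
      omega
    have h3 : 2 * M * (a + 1) ≤ 2 * M * a' := Nat.mul_le_mul_left _ (by omega)
    have h4 : 2 * M * (a + 1) = 2 * M * a + 2 * M := by ring
    omega
  · have h2 := ct_gap (2 * M) h1
    have h3 : 2 * M * (a' + 1) ≤ 2 * M * (l' + 1) := Nat.mul_le_mul_left _ (by omega)
    have h4 : 2 * M * (a' + 1) = 2 * M * a' + 2 * M := by ring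
    omega

theorem SP_sep (M : ℕ) : ∀ s ∈ SP (2 * M), ∀ s' ∈ SP (2 * M), s < s' → s + 2 * M ≤ s' := by
  rintro s ⟨a, rfl⟩ s' ⟨a', rfl⟩ h
  have h2 : a < a' := by
    by_contra hcon
    have := Nat.mul_le_mul_left (2 * M) (not_lt.1 hcon)
    omega
  have h3 : 2 * M * (a + 1) ≤ 2 * M * a' := Nat.mul_le_mul_left _ (by omega)
  have h4 : 2 * M * (a + 1) = 2 * M * a + 2 * M := by ring
  omega

/-- the long runs of the point `SX` agree with the periodic point -/
theorem pl_agree (w : ℕ → Bool) (M l t : ℕ) (hM : 0 < M) (ht : t < 2 * M * l) :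
    pl w M (SX (2 * M)) (t + ct (2 * M) l) = pl w M (SP (2 * M)) t := by
  rw [Bool.eq_iff_iff, pl_iff, pl_iff]
  constructor
  · rintro ⟨s, ⟨l', a, ha, rfl⟩, h1, h2, h3⟩
    rcases lt_trichotomy l' l with h | h | h
    · have h4 := ct_gap (2 * M) h
      have h3 : 2 * M * (a + 1) ≤ 2 * M * (l' + 1) := Nat.mul_le_mul_left _ (by omega)
      have h5 : 2 * M * (a + 1) = 2 * M * a + 2 * M := by ring
      omega
    · subst h
      refine ⟨2 * M * a, ⟨a, rfl⟩, by omega, by omega, ?_⟩
      rwa [show t + ct (2 * M) l' - (ct (2 * M) l' + 2 * M * a) = t - 2 * M * a by omega] at h3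
    · have h4 := ct_gap (2 * M) h
      have h5 : 2 * M * (l + 1) = 2 * M * l + 2 * M := by ring
      omega
  · rintro ⟨s, ⟨a, rfl⟩, h1, h2, h3⟩
    have ha : a < l := by
      by_contra hcon
      have := Nat.mul_le_mul_left (2 * M) (not_lt.1 hcon)
      omega
    refine ⟨ct (2 * M) l + 2 * M * a, ⟨l, a, ha, rfl⟩, by omega, by omega, ?_⟩
    rwa [show t + ct (2 * M) l - (ct (2 * M) l + 2 * M * a) = t - 2 * M * a by omega]

theorem pl_periodic (w : ℕ → Bool) (M t : ℕ) (_hM : 0 < M) :
    pl w M (SP (2 * M)) (t + 2 * M) = pl w M (SP (2 * M)) t := by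
  rw [Bool.eq_iff_iff, pl_iff, pl_iff]
  constructor
  · rintro ⟨s, ⟨a, rfl⟩, h1, h2, h3⟩
    rcases a with _ | a
    · omega
    · have h4 : 2 * M * (a + 1) = 2 * M * a + 2 * M := by ring
      refine ⟨2 * M * a, ⟨a, rfl⟩, by omega, by omega, ?_⟩
      rwa [show t + 2 * M - 2 * M * (a + 1) = t - 2 * M * a by omega] at h3
  · rintro ⟨s, ⟨a, rfl⟩, h1, h2, h3⟩
    have h4 : 2 * M * (a + 1) = 2 * M * a + 2 * M := by ring
    refine ⟨2 * M * (a + 1), ⟨a + 1, rfl⟩, by omega, by omega, ?_⟩
    rwa [show t + 2 * M - 2 * M * (a + 1) = t - 2 * M * a by omega]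

theorem pl_init (w : ℕ → Bool) (M t : ℕ) (ht : t < M) : pl w M (SP (2 * M)) t = w t := by
  rw [Bool.eq_iff_iff, pl_iff]
  constructor
  · rintro ⟨s, ⟨a, rfl⟩, h1, h2, h3⟩
    rcases a with _ | a
    · simpa using h3
    · have h4 : 2 * M * (a + 1) = 2 * M * a + 2 * M := by ring
      omega
  · intro h
    exact ⟨0, ⟨0, by simp⟩, by omega, by omega, by simpa using h⟩

theorem tendsto_X {ι : Type} {F : Filter ι} {u : ι → X} {x : X}
    (h1 : ∀ d, ∀ᶠ n in F, (u n).1.1 d = x.1.1 d) (h2 : ∀ d, ∀ᶠ n in F, (u n).1.2 d = x.1.2 d) :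
    Tendsto u F (𝓝 x) := by
  rw [tendsto_subtype_rng, nhds_prod_eq]
  refine Tendsto.prodMk (tendsto_pi_nhds.2 fun d => ?_) (tendsto_pi_nhds.2 fun d => ?_)
  · exact tendsto_const_nhds.congr' ((h1 d).mono fun n hn => hn.symm)
  · exact tendsto_const_nhds.congr' ((h2 d).mono fun n hn => hn.symm)

theorem T_disjoint : DisjointFromAllMinimal T := by
  intro Y _ _ R hR _ hmin J hJ
  obtain ⟨-, hJc, hJinv, hJ1, -⟩ := hJ
  rw [eq_univ_iff_forall]
  rintro ⟨x, z⟩
  -- the periodic approximations are full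
  have key : ∀ M : ℕ, 0 < M → ∀ hp : (bigP x.1.1 M, pl x.1.2 M (SP (2 * M))) ∈ Adm,
      ((⟨_, hp⟩ : X), z) ∈ J := by
    intro M hM hp
    have hN : 0 < 2 * M := by omega
    obtain ⟨K, hK, hcov⟩ := pieces hR hmin (2 * M) hN
    obtain ⟨i, hi⟩ := hcov z
    let xx : X := ⟨(bigP x.1.1 M, pl x.1.2 M (SX (2 * M))), pl_mem x.2 M _ (SX_sep M)⟩
    obtain ⟨⟨x', y⟩, hy, hx'⟩ : xx ∈ Prod.fst '' J := by rw [hJ1]; trivial
    change x' = xx at hx'
    subst hx'
    obtain ⟨k', hk'⟩ := hcov y
    -- reduce the phase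
    obtain ⟨k, hkN, hk⟩ : ∃ k, k < 2 * M ∧ ∃ n, k' = k + 2 * M * n :=
      ⟨k' % (2 * M), Nat.mod_lt _ hN, k' / (2 * M), (Nat.mod_add_div _ _).symm⟩
    obtain ⟨n₀, hn₀⟩ := hk
    have hyk : y ∈ R^[k] '' K := by
      have := piece_mapsTo hK k k' 0 n₀ (by omega) hk'
      simpa using this
    let l : ℕ → ℕ := fun n => (i + 2 * M - k) + 2 * M * n
    let t : ℕ → ℕ := fun n => ct (2 * M) (l n)
    have hmem : ∀ n, R^[t n] y ∈ R^[i] '' K := by
      intro n
      refine piece_mapsTo hK i k (t n) (2 * (l n) ^ 2 + 1 + n) ?_ hyk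
      have h1 : l n + k = i + 2 * M + 2 * M * n := by
        change (i + 2 * M - k) + 2 * M * n + k = _
        omega
      change 2 * (2 * M) * (l n) ^ 2 + l n + k = _
      rw [add_assoc, h1]; ring
    have hcomp : IsCompact (R^[i] '' K) := hK.2.1.isCompact.image (hR.iterate i)
    obtain ⟨z', hz', φ, hφ, hlim⟩ := hcomp.tendsto_subseq hmem
    have hJt : ∀ n, (T^[t n] xx, R^[t n] y) ∈ J := by
      intro n
      have := hJinv.iterate (t n) hy
      rw [Prod.map_iterate] at this
      exact this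
    have hlimx : Tendsto (fun n => T^[t (φ n)] xx) atTop (𝓝 (⟨_, hp⟩ : X)) := by
      refine tendsto_X (fun d => ?_) (fun d => ?_)
      · refine Eventually.of_forall fun n => ?_
        rw [T_iter]
      · filter_upwards [hφ.tendsto_atTop.eventually_ge_atTop (d + 1)] with n hn
        rw [T_iter]
        change pl x.1.2 M (SX (2 * M)) (d + ct (2 * M) (l (φ n))) = _
        rw [pl_agree _ _ _ _ hM]
        have h1 : d + 1 ≤ l (φ n) := by
          change d + 1 ≤ (i + 2 * M - k) + 2 * M * (φ n)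
          have : φ n ≤ 2 * M * φ n := Nat.le_mul_of_pos_left _ hN
          omega
        have h2 : l (φ n) ≤ 2 * M * l (φ n) := Nat.le_mul_of_pos_left _ hN
        omega
    have hz'J : ((⟨_, hp⟩ : X), z') ∈ J :=
      hJc.mem_of_tendsto (hlimx.prodMk_nhds hlim) (Eventually.of_forall fun n => hJt (φ n))
    -- the fibre over the periodic point
    have hA : R^[i] '' K ⊆ {v | ((⟨_, hp⟩ : X), v) ∈ J} := by
      refine piece_minimal hR hK i ?_ ?_ hz'J hz'
      · exact hJc.preimage (continuous_const.prodMk continuous_id)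
      · intro v hv
        have h1 := hJinv.iterate (2 * M) hv
        rw [Prod.map_iterate] at h1
        have h2 : T^[2 * M] (⟨_, hp⟩ : X) = ⟨_, hp⟩ := by
          apply Subtype.ext
          rw [T_iter]
          refine Prod.ext rfl ?_
          funext d
          exact pl_periodic _ _ _ hM
        change (T^[2 * M] (⟨_, hp⟩ : X), R^[2 * M] v) ∈ J at h1
        rw [h2] at h1
        exact h1
    exact hA hi
  -- conclusion by density
  have hp : ∀ M, (bigP x.1.1 M, pl x.1.2 M (SP (2 * M))) ∈ Adm := fun M =>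
    pl_mem x.2 M _ (SP_sep M)
  have hlim : Tendsto (fun M => (⟨_, hp M⟩ : X)) atTop (𝓝 x) := by
    refine tendsto_X (fun d => ?_) (fun d => ?_)
    · filter_upwards [eventually_ge_atTop (d + 1)] with M hM
      change (x.1.1 d || decide (M ≤ d)) = x.1.1 d
      simp [show ¬ M ≤ d by omega]
    · filter_upwards [eventually_ge_atTop (d + 1)] with M hM
      exact pl_init _ _ _ (by omega)
  refine hJc.mem_of_tendsto (hlim.prodMk_nhds tendsto_const_nhds) ?_
  filter_upwards [eventually_ge_atTop 1] with M hM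
  exact key M hM (hp M)

/-! ### The generic points -/

/-- The points whose set of forbidden differences contains an interval of length `k`. -/
def GG (k : ℕ) : Set X := {x | ∃ n, ∀ i < k, x.1.1 (n + 1 + i) = false}

theorem GG_open (k : ℕ) : IsOpen (GG k) := by
  have : GG k = ⋃ n, ⋂ i ∈ Finset.range k, {x : X | x.1.1 (n + 1 + i) = false} := by
    ext x
    simp only [GG, mem_ofPred_eq, mem_iUnion, mem_iInter, Finset.mem_range]
  rw [this]
  refine isOpen_iUnion fun n => isOpen_biInter_finset fun i _ => ?_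
  have h1 : Continuous fun x : X => x.1.1 (n + 1 + i) :=
    (continuous_apply (n + 1 + i)).comp (continuous_fst.comp continuous_subtype_val)
  exact (isOpen_discrete {false}).preimage h1

theorem GG_dense (k : ℕ) : Dense (GG k) := by
  intro x
  have hp : ∀ M, ((fun d => x.1.1 d && decide (d < M), fun i => x.1.2 i && decide (i < M)) :
      (ℕ → Bool) × (ℕ → Bool)) ∈ Adm := by
    intro M i j hij h1 h2
    dsimp only at h1 h2 ⊢
    rw [Bool.and_eq_true, decide_eq_true_eq] at h1 h2
    have := x.2 i j hij h1.1 h2.1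
    rw [this, Bool.true_and, decide_eq_true_eq]
    omega
  refine mem_closure_of_tendsto (f := fun M => (⟨_, hp M⟩ : X)) (b := atTop) ?_ ?_
  · refine tendsto_X (fun d => ?_) (fun d => ?_)
    · filter_upwards [eventually_ge_atTop (d + 1)] with M hM
      change (x.1.1 d && decide (d < M)) = _
      simp [show d < M by omega]
    · filter_upwards [eventually_ge_atTop (d + 1)] with M hM
      change (x.1.2 d && decide (d < M)) = _
      simp [show d < M by omega]
  · refine Eventually.of_forall fun M => ⟨M, fun i _ => ?_⟩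
    change (x.1.1 (M + 1 + i) && decide (M + 1 + i < M)) = false
    simp [show ¬ (M + 1 + i < M) by omega]

theorem T_generic : ¬ ∃ Ω : Set X, IsGδ Ω ∧ Dense Ω ∧
    ∀ x ∈ Ω, HasDenseMinimalPoints T (OrbitClosure T x) := by
  rintro ⟨Ω, hΩ, hd, h⟩
  have hG : IsGδ (⋂ k, GG k) := IsGδ.iInter_of_isOpen GG_open
  have hGd : Dense (⋂ k, GG k) := dense_iInter_of_isOpen GG_open GG_dense
  have hdd : Dense (Ω ∩ ⋂ k, GG k) := hd.inter_of_Gδ hΩ hG hGd
  have hU : IsOpen {x : X | x.1.2 0 = true} := by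
    have h1 : Continuous fun x : X => x.1.2 0 :=
      (continuous_apply 0).comp (continuous_snd.comp continuous_subtype_val)
    exact (isOpen_discrete {true}).preimage h1
  have hne : {x : X | x.1.2 0 = true}.Nonempty :=
    ⟨⟨(fun _ => true, fun _ => true), fun _ _ _ _ _ => rfl⟩, rfl⟩
  obtain ⟨x, hxU, hxΩ, hxG⟩ := hdd.inter_open_nonempty _ hU hne
  have hself : x ∈ OrbitClosure T x := subset_closure ⟨0, rfl⟩
  have h1 := h x hxΩ hself
  rw [mem_closure_iff] at h1
  obtain ⟨m, hm0, hmO, hmin⟩ := h1 _ hU hxU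
  -- the first coordinate of m
  have hP : m.1.1 = x.1.1 := by
    have h2 : IsClosed {y : X | y.1.1 = x.1.1} :=
      isClosed_singleton.preimage (continuous_fst.comp continuous_subtype_val)
    have h3 : OrbitClosure T x ⊆ {y : X | y.1.1 = x.1.1} := by
      refine closure_minimal ?_ h2
      rintro _ ⟨n, rfl⟩
      change (T^[n] x).1.1 = x.1.1
      rw [T_iter]
    exact h3 hmO
  -- the fixed point
  let o : X := ⟨(m.1.1, fun _ => false), fun _ _ _ h _ => by simp at h⟩
  have ho : o ∈ OrbitClosure T m := by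
    have hn : ∀ k, ∃ n, ∀ i < k, x.1.1 (n + 1 + i) = false := fun k => mem_iInter.1 hxG k
    choose n hn using hn
    refine mem_closure_of_tendsto (f := fun k => T^[n (k + 1) + 1] m) (b := atTop) ?_
      (Eventually.of_forall fun k => ⟨_, rfl⟩)
    refine tendsto_X (fun d => ?_) (fun d => ?_)
    · exact Eventually.of_forall fun k => by rw [T_iter]
    · filter_upwards [eventually_ge_atTop d] with k hk
      rw [T_iter]
      change m.1.2 (d + (n (k + 1) + 1)) = false
      by_contra hcon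
      rw [Bool.not_eq_false] at hcon
      have h5 := hn (k + 1) d (by omega)
      have := m.2 0 (d + (n (k + 1) + 1)) (by omega) hm0 hcon
      rw [Nat.sub_zero, hP, add_comm, h5] at this
      simp at this
  have h4 : ({o} : Set X) = OrbitClosure T m := by
    refine hmin.2.2.2 _ (singleton_subset_iff.2 ho) (singleton_nonempty _) isClosed_singleton ?_
    rintro _ rfl
    rfl
  have h5 : m ∈ OrbitClosure T m := subset_closure ⟨0, rfl⟩
  rw [← h4, mem_singleton_iff] at h5
  have h6 : m.1.2 0 = false := by rw [h5]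
  change m.1.2 0 = true at hm0
  rw [h6] at hm0
  simp at hm0

end Q67.DJ
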